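import Pool.Agent.K1H35.SH.Stm

set_option autoImplicit false

namespace Pool.Agent.K1H74.SH

open Finset Pool.Agent.K1H35.SH

theorem mem_nb {n : ℕ} (G : SimpleGraph (Fin n)) (v x : Fin n) : x ∈ nb G v ↔ G.Adj v x := by
  classical
  simp [nb]

theorem mem_reg {n d : ℕ} (G : SimpleGraph (Fin n)) : G ∈ reg n d ↔ ∀ v, (nb G v).card = d := by
  classical
  simp [reg]

theorem card_nb_compl {n : ℕ} (G : SimpleGraph (Fin n)) (v : Fin n) :
    (nb Gᶜ v).card = n - 1 - (nb G v).card := by
  classical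
  have h : nb Gᶜ v = (univ.erase v) \ nb G v := by
    ext x
    simp only [mem_nb, SimpleGraph.compl_adj, mem_sdiff, mem_erase, mem_univ, and_true]
    constructor
    · rintro ⟨h1, h2⟩; exact ⟨h1.symm, h2⟩
    · rintro ⟨h1, h2⟩; exact ⟨h1.symm, h2⟩
  have hsub : nb G v ⊆ univ.erase v := by
    intro x hx
    rw [mem_nb] at hx
    exact mem_erase.2 ⟨hx.ne.symm, mem_univ _⟩
  rw [h, card_sdiff_of_subset hsub, card_erase_of_mem (mem_univ _), card_univ, Fintype.card_fin]

theorem compl_mem {n d : ℕ} {G : SimpleGraph (Fin n)} (h : G ∈ reg n d) :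
    Gᶜ ∈ reg n (n - 1 - d) := by
  rw [mem_reg] at h ⊢
  intro v
  rw [card_nb_compl, h v]

theorem cnt_compl {n d : ℕ} (hd : d ≤ n - 1) (P : SimpleGraph (Fin n) → Prop) :
    cnt n d (fun G => P Gᶜ) = cnt n (n - 1 - d) P := by
  classical
  unfold cnt
  apply card_bij (fun G _ => Gᶜ)
  · intro G hG
    rw [mem_filter] at hG ⊢
    exact ⟨compl_mem hG.1, hG.2⟩
  · intro G _ G' _ h
    exact compl_injective h
  · intro H hH
    rw [mem_filter] at hH
    refine ⟨Hᶜ, ?_, compl_compl H⟩
    rw [mem_filter, compl_compl]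
    refine ⟨?_, hH.2⟩
    have := compl_mem hH.1
    rwa [show n - 1 - (n - 1 - d) = d by omega] at this

theorem cnt_mono {n d : ℕ} {P Q : SimpleGraph (Fin n) → Prop} (h : ∀ G ∈ reg n d, P G → Q G) :
    cnt n d P ≤ cnt n d Q := by
  classical
  unfold cnt
  apply card_le_card
  intro G hG
  rw [mem_filter] at hG ⊢
  exact ⟨hG.1, h G hG.1 hG.2⟩

theorem cnt_or {n d : ℕ} (P Q : SimpleGraph (Fin n) → Prop) :
    cnt n d (fun G => P G ∨ Q G) ≤ cnt n d P + cnt n d Q := by
  classical
  unfold cnt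
  refine le_trans (card_le_card ?_) (card_union_le _ _)
  intro G hG
  have hG' := (@mem_filter _ _ (_) _ _).1 hG
  rw [mem_union, mem_filter, mem_filter]
  tauto

theorem dis_compl {n a : ℕ} {α β : Fin a → Fin n} (h : DisjPair α β) (G : SimpleGraph (Fin n)) :
    dis α β Gᶜ = dis α β G := by
  classical
  unfold dis
  congr 1
  ext p
  simp only [mem_filter, mem_univ, true_and, SimpleGraph.compl_adj]
  constructor
  · rintro ⟨h1, h2⟩
    refine ⟨h1, fun h3 => h2 ?_⟩
    rw [h3]
    have hα : α p.1 ≠ α p.2 := fun e => h1.ne (h.1 e)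
    have hβ : β p.1 ≠ β p.2 := fun e => h1.ne (h.2.1 e)
    simp [hα, hβ]
  · rintro ⟨h1, h2⟩
    refine ⟨h1, fun h3 => h2 ?_⟩
    have hα : α p.1 ≠ α p.2 := fun e => h1.ne (h.1 e)
    have hβ : β p.1 ≠ β p.2 := fun e => h1.ne (h.2.1 e)
    simp only [hα, hβ, ne_eq, not_false_eq_true, true_and] at h3
    exact not_iff_not.1 h3

theorem pairs (a : ℕ) : 2 * (univ.filter (fun p : Fin a × Fin a => p.1 < p.2)).card = a * (a - 1) := by
  classical
  have h1 : (univ.filter (fun p : Fin a × Fin a => p.1 < p.2)).card =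
      (univ.filter (fun p : Fin a × Fin a => p.2 < p.1)).card := by
    apply card_bij (fun p _ => (p.2, p.1))
    · intro p hp; simpa using hp
    · rintro ⟨x, y⟩ _ ⟨x', y'⟩ _ h
      simp only [Prod.mk.injEq] at h
      simp [h.1, h.2]
    · rintro ⟨x, y⟩ hp
      exact ⟨(y, x), by simpa using hp, rfl⟩
  have h2 : (univ.filter (fun p : Fin a × Fin a => p.1 < p.2)) ∪
      (univ.filter (fun p : Fin a × Fin a => p.2 < p.1)) =
      (univ : Finset (Fin a)).offDiag := by
    ext p
    simp only [mem_union, mem_filter, mem_univ, true_and, mem_offDiag]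
    exact ne_iff_lt_or_gt.symm
  have h3 : Disjoint (univ.filter (fun p : Fin a × Fin a => p.1 < p.2))
      (univ.filter (fun p : Fin a × Fin a => p.2 < p.1)) := by
    rw [disjoint_left]
    intro p hp hp'
    simp only [mem_filter, mem_univ, true_and] at hp hp'
    exact lt_asymm hp hp'
  have h4 := card_union_of_disjoint h3
  rw [h2, ← h1, offDiag_card, card_univ, Fintype.card_fin] at h4
  rw [two_mul, ← h4, Nat.mul_sub, mul_one]

theorem split {n a : ℕ} {α β : Fin a → Fin n} (h : DisjPair α β) (G : SimpleGraph (Fin n)) :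
    2 * (non α β G + non α β Gᶜ + dis α β G) = a * (a - 1) := by
  classical
  rw [← pairs a]
  congr 1
  set S := (univ.filter (fun p : Fin a × Fin a => p.1 < p.2)) with hS
  have e1 : non α β G = (S.filter (fun p => ¬ G.Adj (α p.1) (α p.2) ∧
      ¬ G.Adj (β p.1) (β p.2))).card := by
    unfold non
    rw [hS, filter_filter]
  have e2 : non α β Gᶜ = (S.filter (fun p => G.Adj (α p.1) (α p.2) ∧
      G.Adj (β p.1) (β p.2))).card := by
    unfold non
    rw [hS, filter_filter]
    congr 1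
    ext p
    simp only [mem_filter, mem_univ, true_and, SimpleGraph.compl_adj]
    constructor
    · rintro ⟨h1, h2, h3⟩
      have hα : α p.1 ≠ α p.2 := fun e => h1.ne (h.1 e)
      have hβ : β p.1 ≠ β p.2 := fun e => h1.ne (h.2.1 e)
      refine ⟨h1, ?_, ?_⟩
      · by_contra hh; exact h2 ⟨hα, hh⟩
      · by_contra hh; exact h3 ⟨hβ, hh⟩
    · rintro ⟨h1, h2, h3⟩
      exact ⟨h1, fun hh => hh.2 h2, fun hh => hh.2 h3⟩
  have e3 : dis α β G = (S.filter (fun p => ¬ (G.Adj (α p.1) (α p.2) ↔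
      G.Adj (β p.1) (β p.2)))).card := by
    unfold dis
    rw [hS, filter_filter]
  rw [e1, e2, e3]
  clear_value S
  have f1 := card_filter_add_card_filter_not (s := S)
    (fun p : Fin a × Fin a => (G.Adj (α p.1) (α p.2) ↔ G.Adj (β p.1) (β p.2)))
  have f2 := card_filter_add_card_filter_not
    (s := S.filter (fun p : Fin a × Fin a => (G.Adj (α p.1) (α p.2) ↔ G.Adj (β p.1) (β p.2))))
    (fun p : Fin a × Fin a => G.Adj (α p.1) (α p.2))
  rw [filter_filter, filter_filter] at f2
  have g1 : S.filter (fun p : Fin a × Fin a =>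
      (G.Adj (α p.1) (α p.2) ↔ G.Adj (β p.1) (β p.2)) ∧ G.Adj (α p.1) (α p.2)) =
      S.filter (fun p => G.Adj (α p.1) (α p.2) ∧ G.Adj (β p.1) (β p.2)) := by
    apply filter_congr
    intro p _
    tauto
  have g2 : S.filter (fun p : Fin a × Fin a =>
      (G.Adj (α p.1) (α p.2) ↔ G.Adj (β p.1) (β p.2)) ∧ ¬ G.Adj (α p.1) (α p.2)) =
      S.filter (fun p => ¬ G.Adj (α p.1) (α p.2) ∧ ¬ G.Adj (β p.1) (β p.2)) := by
    apply filter_congr
    intro p _
    tauto
  rw [g1, g2] at f2
  omega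

theorem card_TS {n d : ℕ} {G : SimpleGraph (Fin n)} (hG : G ∈ reg n d) (k l : Fin n) :
    (TS G k k l).card + codeg G k l = d := by
  classical
  rw [mem_reg] at hG
  unfold TS codeg
  rw [inter_self, ← hG k]
  exact card_sdiff_add_card_inter _ _

theorem gap_of_good {n d : ℕ} {G : SimpleGraph (Fin n)} (hG : G ∈ reg n d) (h : Good d G) :
    ∀ k l, k ≠ l → d / 16 + 1 ≤ (TS G k k l).card := by
  intro k l hkl
  have h1 := h k l hkl
  have h2 := card_TS hG k l
  omega

theorem gap_compl {n d : ℕ} {G : SimpleGraph (Fin n)} (hG : G ∈ reg n d) (h : Good d G) :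
    Gap (d / 16) Gᶜ := by
  classical
  intro k l hkl
  have h1 := gap_of_good hG h l k hkl.symm
  have h2 : (TS G l l k).erase k ⊆ TS Gᶜ k k l := by
    intro x hx
    rw [mem_erase] at hx
    unfold TS at hx ⊢
    rw [inter_self, mem_sdiff, mem_nb, mem_nb] at hx ⊢
    obtain ⟨hxk, hlx, hkx⟩ := hx
    rw [SimpleGraph.compl_adj, SimpleGraph.compl_adj]
    exact ⟨⟨hxk.symm, hkx⟩, fun hh => hh.2 hlx⟩
  have h3 := card_le_card h2
  have h4 := pred_card_le_card_erase (a := k) (s := TS G l l k)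
  omega

theorem t_THB (h : S_THA) : S_THB := by
  intro n d a q j α β hD hdn hd64 hag hqa hjq hjn
  set g := d / 16 with hg
  have hn : 0 < n := by omega
  have hqg : 0 < q * g := by
    have : 0 < 16 * (j + 1) * n := by positivity
    omega
  have key : ∀ (D X Y : ℕ), 0 < D → X * (q * D * g) ≤ 4 * (j + 1) * n * D * Y → 4 * X ≤ Y := by
    intro D X Y hD0 hXY
    have h1 : D * (X * (q * g)) ≤ D * (4 * (j + 1) * n * Y) := by
      calc D * (X * (q * g)) = X * (q * D * g) := by ring
        _ ≤ 4 * (j + 1) * n * D * Y := hXY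
        _ = D * (4 * (j + 1) * n * Y) := by ring
    have h2 : X * (q * g) ≤ 4 * (j + 1) * n * Y := Nat.le_of_mul_le_mul_left h1 hD0
    have h3 : (q * g) * (4 * X) ≤ (q * g) * Y := by
      calc (q * g) * (4 * X) = 4 * (X * (q * g)) := by ring
        _ ≤ 4 * (4 * (j + 1) * n * Y) := Nat.mul_le_mul_left 4 h2
        _ = (16 * (j + 1) * n) * Y := by ring
        _ ≤ (q * g) * Y := Nat.mul_le_mul_right Y hjn
    exact Nat.le_of_mul_le_mul_left h3 hqg
  set Y := cnt n d (fun G => dis α β G = j + 1) with hY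
  set X1 := cnt n d (fun G => Gap g G ∧ dis α β G = j ∧ q ≤ non α β G) with hX1
  set X2 := cnt n (n - 1 - d) (fun G => Gap g G ∧ dis α β G = j ∧ q ≤ non α β G) with hX2
  have hY2 : cnt n (n - 1 - d) (fun G => dis α β G = j + 1) = Y := by
    rw [hY, ← cnt_compl (by omega)]
    simp only [dis_compl hD]
  have b1 : 4 * X1 ≤ Y := key d X1 Y (by omega) (h n d g a q j α β hD (by omega) hag)
  have b2 : 4 * X2 ≤ Y := by
    have := h n (n - 1 - d) g a q j α β hD (by omega) hag
    rw [hY2] at this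
    exact key (n - 1 - d) X2 Y (by omega) this
  have hmain : cnt n d (fun G => Good d G ∧ dis α β G = j) ≤ X1 + X2 := by
    rw [hX1, hX2, ← cnt_compl (by omega)]
    refine le_trans (cnt_mono ?_) (cnt_or _ _)
    rintro G hG ⟨hgood, hdis⟩
    have hs := split hD G
    have hcase : q ≤ non α β G ∨ q ≤ non α β Gᶜ := by
      by_contra hcon
      push Not at hcon
      omega
    rcases hcase with hc | hc
    · left
      refine ⟨fun k l hkl => ?_, hdis, hc⟩
      have := gap_of_good hG hgood k l hkl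
      omega
    · right
      exact ⟨gap_compl hG hgood, by rw [dis_compl hD]; exact hdis, hc⟩
  omega

end Pool.Agent.K1H74.SH
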